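import Pool.Agent.Q139.Hasse.Final

/-!
# MP_512408_co : order dimension of Hasse-regular semidistributive lattices

There is a finite lattice (with 343 elements) that is semidistributive, congruence uniform and
`4`-Hasse-regular but has order dimension greater than `4`.  So both questions have negative
answers.
-/

namespace Pool.Agent.Results.MP_512408_co.DimensionCounterexample

open Pool.Agent.Q139.Hasse

theorem result :
    (∃ (L : Type) (_ : Lattice L) (_ : Finite L),
      Semidistributive L ∧ CongruenceUniform L ∧ HasseRegular L 4 ∧ 4 < orderDim L) ∧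
    (¬ ∀ r : ℕ, 1 ≤ r → ∀ (L : Type) [Lattice L] [Finite L],
      Semidistributive L → HasseRegular L r → orderDim L = r) ∧
    (¬ ∀ r : ℕ, 1 ≤ r → ∀ (L : Type) [Lattice L] [Finite L],
      Semidistributive L → CongruenceUniform L → HasseRegular L r → orderDim L = r) := by
  obtain ⟨L, hL, hf, h1, h2, h3, h4⟩ := example_lattice
  refine ⟨⟨L, hL, hf, h1, h2, h3, h4⟩, ?_, ?_⟩
  · intro h
    have := h 4 (by norm_num) L h1 h3
    omega
  · intro h
    have := h 4 (by norm_num) L h1 h2 h3
    omega

end Pool.Agent.Results.MP_512408_co.DimensionCounterexample
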